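import Mathlib
set_option autoImplicit false
namespace Pool.Agent.Helper9.Hopf

open Set Filter Topology MeasureTheory BoundedContinuousFunction

/-- the space of perturbations -/
def PSet (m : ℕ) (κ ε : ℝ) : Set (ℝ →ᵇ (Fin m → ℝ)) :=
  {φ | (∀ t i, |φ t i| ≤ ε) ∧ ∀ t t' i, |φ t i - φ t' i| ≤ κ * |t - t'|}

lemma continuous_ev {m : ℕ} (t : ℝ) (i : Fin m) :
    Continuous fun φ : ℝ →ᵇ (Fin m → ℝ) => φ t i :=
  (continuous_apply i).comp (continuous_eval_const t)

lemma isClosed_PSet (m : ℕ) (κ ε : ℝ) : IsClosed (PSet m κ ε) := by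
  have : PSet m κ ε = (⋂ t, ⋂ i, {φ : ℝ →ᵇ (Fin m → ℝ) | |φ t i| ≤ ε}) ∩
      ⋂ t, ⋂ t', ⋂ i, {φ : ℝ →ᵇ (Fin m → ℝ) | |φ t i - φ t' i| ≤ κ * |t - t'|} := by
    ext φ; simp [PSet]
  rw [this]
  refine IsClosed.inter (isClosed_iInter fun t => isClosed_iInter fun i => ?_)
    (isClosed_iInter fun t => isClosed_iInter fun t' => isClosed_iInter fun i => ?_)
  · exact isClosed_le (continuous_ev t i).abs continuous_const
  · exact isClosed_le ((continuous_ev t i).sub (continuous_ev t' i)).abs continuous_const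

instance (m : ℕ) (κ ε : ℝ) : CompleteSpace (PSet m κ ε) :=
  (isClosed_PSet m κ ε).completeSpace_coe

lemma good_residual {m : ℕ} {κ ε : ℝ} (hκ : 0 < κ) (hε : 0 < ε)
    {P : Type*} [MetricSpace P] (C : Set P) (hC : IsCompact C)
    {J : Type*} [Fintype J] [DecidableEq J] (i : J → Fin m) (x g : J → P → ℝ) (b : J → ℝ → ℝ)
    (L₁ L₂ L₃ : ℝ) (hL₁ : 0 ≤ L₁) (hL₂ : 0 ≤ L₂) (hL₃ : 0 ≤ L₃)
    (hxc : ∀ j, Continuous (x j)) (hgc : ∀ j, Continuous (g j))
    (hx : ∀ j, ∀ p ∈ C, ∀ q ∈ C, |x j p - x j q| ≤ L₁ * dist p q)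
    (hg : ∀ j, ∀ p ∈ C, ∀ q ∈ C, |g j p - g j q| ≤ L₂ * dist p q)
    (hbL : ∀ j, ∀ t t', |b j t - b j t'| ≤ L₃ * |t - t'|) (hb1 : ∀ j t, |b j t| ≤ 1)
    (hbj : ∀ p ∈ C, ∀ j, b j (x j p) = 1)
    (hbk : ∀ p ∈ C, ∀ j k, j ≠ k → i j = i k → b j (x k p) = 0)
    (hdim : dimH C < Fintype.card J) :
    ∀ᶠ φ : PSet m κ ε in residual (PSet m κ ε), ¬ ∃ p ∈ C, ∀ j, (φ : ℝ →ᵇ (Fin m → ℝ)) (x j p) (i j) = g j p := by
  set S : Set (PSet m κ ε) :=
    {φ | ¬ ∃ p ∈ C, ∀ j, (φ : ℝ →ᵇ (Fin m → ℝ)) (x j p) (i j) = g j p} with hS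
  have hopen : IsOpen S := by
    rw [isOpen_iff_eventually]
    intro φ₀ hφ₀
    have hP : ∀ p ∈ C, ∀ᶠ z : (PSet m κ ε) × P in 𝓝 (φ₀, p),
        ¬ ∀ j, (z.1 : ℝ →ᵇ (Fin m → ℝ)) (x j z.2) (i j) = g j z.2 := by
      intro p hp
      have hne : ∃ j, (φ₀ : ℝ →ᵇ (Fin m → ℝ)) (x j p) (i j) ≠ g j p := by
        by_contra hcon
        push Not at hcon
        exact hφ₀ ⟨p, hp, hcon⟩
      obtain ⟨j, hj⟩ := hne
      have hc1 : Continuous fun z : (PSet m κ ε) × P => (z.1 : ℝ →ᵇ (Fin m → ℝ)) (x j z.2) (i j) := by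
        have h1 : Continuous fun z : (PSet m κ ε) × P =>
            ((z.1 : ℝ →ᵇ (Fin m → ℝ)), x j z.2) :=
          (continuous_subtype_val.comp continuous_fst).prodMk ((hxc j).comp continuous_snd)
        exact (continuous_apply (i j)).comp (continuous_eval.comp h1)
      have hc2 : Continuous fun z : (PSet m κ ε) × P => g j z.2 := (hgc j).comp continuous_snd
      have := (hc1.sub hc2).continuousAt (x := (φ₀, p)) |>.eventually_ne (sub_ne_zero.mpr hj)
      filter_upwards [this] with z hz hcon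
      exact hz (by simp only [Pi.sub_apply]; rw [hcon j, sub_self])
    have := hC.eventually_forall_of_forall_eventually (x₀ := φ₀)
      (P := fun z p => ¬ ∀ j, (z : ℝ →ᵇ (Fin m → ℝ)) (x j p) (i j) = g j p) hP
    filter_upwards [this] with φ hφ
    rintro ⟨p, hp, hpj⟩
    exact hφ p hp hpj
  have hdense : Dense S := by
    rw [Metric.dense_iff]
    intro φ₀ η hη
    obtain ⟨φ₀, hφ1, hφ2⟩ := φ₀
    obtain ⟨δ, hδ0, hδ1, hδη⟩ : ∃ δ : ℝ, 0 < δ ∧ δ ≤ 1 ∧ 2 * (δ * ε) < η := by
      refine ⟨min 1 (η / (4 * ε)), lt_min one_pos (by positivity), min_le_left _ _, ?_⟩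
      have : min 1 (η / (4 * ε)) ≤ η / (4 * ε) := min_le_right _ _
      calc 2 * (min 1 (η / (4 * ε)) * ε) ≤ 2 * (η / (4 * ε) * ε) := by gcongr
        _ = η / 2 := by field_simp; ring
        _ < η := by linarith
    -- the Lipschitz map
    set G : P → (J → ℝ) := fun p j => g j p - (1 - δ) * φ₀ (x j p) (i j) with hG
    have hGL : LipschitzOnWith (Real.toNNReal (L₂ + κ * L₁)) G C := by
      apply LipschitzOnWith.of_dist_le_mul
      intro p hp q hq
      rw [Real.coe_toNNReal _ (by positivity), dist_pi_le_iff (by positivity)]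
      intro j
      rw [Real.dist_eq]
      have e1 := hg j p hp q hq
      have e2 := hφ2 (x j p) (x j q) (i j)
      have e3 := hx j p hp q hq
      have e4 : |φ₀ (x j p) (i j) - φ₀ (x j q) (i j)| ≤ κ * (L₁ * dist p q) :=
        e2.trans (by gcongr)
      have : G p j - G q j = (g j p - g j q) - (1 - δ) * (φ₀ (x j p) (i j) - φ₀ (x j q) (i j)) := by
        simp only [hG]; ring
      rw [this]
      calc |(g j p - g j q) - (1 - δ) * (φ₀ (x j p) (i j) - φ₀ (x j q) (i j))|
          ≤ |g j p - g j q| + |(1 - δ) * (φ₀ (x j p) (i j) - φ₀ (x j q) (i j))| := abs_sub _ _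
        _ = |g j p - g j q| + (1 - δ) * |φ₀ (x j p) (i j) - φ₀ (x j q) (i j)| := by
            rw [abs_mul, abs_of_nonneg (by linarith : (0:ℝ) ≤ 1 - δ)]
        _ ≤ L₂ * dist p q + 1 * (κ * (L₁ * dist p q)) := by
            gcongr
            linarith
        _ = (L₂ + κ * L₁) * dist p q := by ring
    have hdG : dimH (G '' C) < Module.finrank ℝ (J → ℝ) := by
      rw [Module.finrank_fintype_fun_eq_card]
      exact lt_of_le_of_lt hGL.dimH_image_le hdim
    have hdns := dense_compl_of_dimH_lt_finrank hdG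
    set γ : ℝ := δ * min ε (κ / (L₃ + 1)) / (Fintype.card J + 1) with hγ
    have hγ0 : 0 < γ := by
      have : 0 < min ε (κ / (L₃ + 1)) := lt_min hε (by positivity)
      positivity
    obtain ⟨c, hcG, hc⟩ := hdns.exists_dist_lt (0 : J → ℝ) hγ0
    have hcj : ∀ j, |c j| ≤ γ := by
      intro j
      rw [dist_comm, dist_zero_right] at hc
      exact (norm_le_pi_norm c j).trans hc.le
    have hsum : (Fintype.card J : ℝ) * γ ≤ δ * min ε (κ / (L₃ + 1)) := by
      have h0 : 0 ≤ δ * min ε (κ / (L₃ + 1)) := by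
        have : 0 < min ε (κ / (L₃ + 1)) := lt_min hε (by positivity)
        positivity
      rw [hγ, ← mul_div_assoc, div_le_iff₀ (by positivity)]
      nlinarith
    have hsum1 : (Fintype.card J : ℝ) * γ ≤ δ * ε :=
      hsum.trans (by gcongr; exact min_le_left _ _)
    have hsum2 : (Fintype.card J : ℝ) * γ * L₃ ≤ δ * κ := by
      have h1 : (Fintype.card J : ℝ) * γ ≤ δ * (κ / (L₃ + 1)) :=
        hsum.trans (by gcongr; exact min_le_right _ _)
      calc (Fintype.card J : ℝ) * γ * L₃ ≤ δ * (κ / (L₃ + 1)) * L₃ := by gcongr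
        _ ≤ δ * (κ / (L₃ + 1)) * (L₃ + 1) := by
            apply mul_le_mul_of_nonneg_left (by linarith) (by positivity)
        _ = δ * κ := by field_simp
    -- the perturbing function
    set h : ℝ → Fin m → ℝ := fun t k => ∑ j, if i j = k then c j * b j t else 0 with hh
    have hbc : ∀ j, Continuous (b j) := by
      intro j
      have : LipschitzWith (Real.toNNReal L₃) (b j) := by
        apply LipschitzWith.of_dist_le_mul
        intro t t'
        rw [Real.coe_toNNReal _ hL₃, Real.dist_eq, Real.dist_eq]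
        exact hbL j t t'
      exact this.continuous
    have hhb : ∀ t k, |h t k| ≤ (Fintype.card J : ℝ) * γ := by
      intro t k
      calc |h t k| ≤ ∑ j, |if i j = k then c j * b j t else 0| := Finset.abs_sum_le_sum_abs _ _
        _ ≤ ∑ _j : J, γ := by
            apply Finset.sum_le_sum
            intro j _
            split_ifs
            · rw [abs_mul]
              calc |c j| * |b j t| ≤ γ * 1 := by
                    gcongr
                    · exact hcj j
                    · exact hb1 j t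
                _ = γ := mul_one _
            · simpa using hγ0.le
        _ = (Fintype.card J : ℝ) * γ := by simp
    have hhL : ∀ t t' k, |h t k - h t' k| ≤ (Fintype.card J : ℝ) * γ * L₃ * |t - t'| := by
      intro t t' k
      have : h t k - h t' k = ∑ j, (if i j = k then c j * (b j t - b j t') else 0) := by
        simp only [hh]
        rw [← Finset.sum_sub_distrib]
        apply Finset.sum_congr rfl
        intro j _
        split_ifs <;> ring
      rw [this]
      calc |∑ j, (if i j = k then c j * (b j t - b j t') else 0)|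
          ≤ ∑ j, |if i j = k then c j * (b j t - b j t') else 0| := Finset.abs_sum_le_sum_abs _ _
        _ ≤ ∑ _j : J, γ * (L₃ * |t - t'|) := by
            apply Finset.sum_le_sum
            intro j _
            split_ifs
            · rw [abs_mul]
              gcongr
              · exact hcj j
              · exact hbL j t t'
            · simp; positivity
        _ = (Fintype.card J : ℝ) * γ * L₃ * |t - t'| := by
            rw [Finset.sum_const, Finset.card_univ, nsmul_eq_mul]; ring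
    set f : ℝ → Fin m → ℝ := fun t k => (1 - δ) * φ₀ t k + h t k with hf
    have hfc : Continuous f := by
      apply continuous_pi
      intro k
      apply Continuous.add
      · exact continuous_const.mul ((continuous_apply k).comp φ₀.continuous)
      · apply continuous_finsetSum
        intro j _
        split_ifs
        · exact continuous_const.mul (hbc j)
        · exact continuous_const
    have hf1 : ∀ t k, |f t k| ≤ ε := by
      intro t k
      calc |f t k| ≤ |(1 - δ) * φ₀ t k| + |h t k| := abs_add_le _ _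
        _ ≤ (1 - δ) * ε + δ * ε := by
            rw [abs_mul, abs_of_nonneg (by linarith : (0:ℝ) ≤ 1 - δ)]
            have h1 := hφ1 t k
            have h2 := (hhb t k).trans hsum1
            have h3 : (1 - δ) * |φ₀ t k| ≤ (1 - δ) * ε :=
              mul_le_mul_of_nonneg_left h1 (by linarith)
            linarith
        _ = ε := by ring
    have hf2 : ∀ t t' k, |f t k - f t' k| ≤ κ * |t - t'| := by
      intro t t' k
      have e : f t k - f t' k = (1 - δ) * (φ₀ t k - φ₀ t' k) + (h t k - h t' k) := by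
        simp only [hf]; ring
      rw [e]
      calc |(1 - δ) * (φ₀ t k - φ₀ t' k) + (h t k - h t' k)|
          ≤ |(1 - δ) * (φ₀ t k - φ₀ t' k)| + |h t k - h t' k| := abs_add_le _ _
        _ ≤ (1 - δ) * (κ * |t - t'|) + δ * κ * |t - t'| := by
            rw [abs_mul, abs_of_nonneg (by linarith : (0:ℝ) ≤ 1 - δ)]
            have h1 : (1 - δ) * |φ₀ t k - φ₀ t' k| ≤ (1 - δ) * (κ * |t - t'|) :=
              mul_le_mul_of_nonneg_left (hφ2 t t' k) (by linarith)
            have h2 : (Fintype.card J : ℝ) * γ * L₃ * |t - t'| ≤ δ * κ * |t - t'| := by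
              gcongr
            have h3 := hhL t t' k
            linarith
        _ = κ * |t - t'| := by ring
    have hfn : ∀ t, ‖f t‖ ≤ ε := by
      intro t
      rw [pi_norm_le_iff_of_nonneg hε.le]
      intro k
      exact hf1 t k
    let F : ℝ →ᵇ (Fin m → ℝ) := BoundedContinuousFunction.ofNormedAddCommGroup f hfc ε hfn
    have hFv : ∀ t, F t = f t := fun t => rfl
    refine ⟨⟨F, ?_, ?_⟩, ?_, ?_⟩
    · intro t k; exact hf1 t k
    · intro t t' k; exact hf2 t t' k
    · rw [Metric.mem_ball]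
      have : dist F φ₀ ≤ 2 * (δ * ε) := by
        rw [BoundedContinuousFunction.dist_le (by positivity)]
        intro t
        rw [dist_pi_le_iff (by positivity)]
        intro k
        rw [Real.dist_eq, hFv]
        have e : f t k - φ₀ t k = - (δ * φ₀ t k) + h t k := by simp only [hf]; ring
        rw [e]
        calc |-(δ * φ₀ t k) + h t k| ≤ |-(δ * φ₀ t k)| + |h t k| := abs_add_le _ _
          _ ≤ δ * ε + δ * ε := by
              rw [abs_neg, abs_mul, abs_of_pos hδ0]
              have h1 : δ * |φ₀ t k| ≤ δ * ε := mul_le_mul_of_nonneg_left (hφ1 t k) hδ0.le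
              have h2 := (hhb t k).trans hsum1
              linarith
          _ = 2 * (δ * ε) := by ring
      exact lt_of_le_of_lt this hδη
    · rintro ⟨p, hp, hpj⟩
      apply hcG
      refine ⟨p, hp, ?_⟩
      funext j
      have h1 := hpj j
      change f (x j p) (i j) = g j p at h1
      have h2 : h (x j p) (i j) = c j := by
        simp only [hh]
        rw [Finset.sum_eq_single j]
        · simp [hbj p hp j]
        · intro k _ hkj
          split_ifs with hik
          · rw [hbk p hp k j hkj hik, mul_zero]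
          · rfl
        · intro hj; exact absurd (Finset.mem_univ j) hj
      simp only [hf] at h1
      rw [h2] at h1
      simp only [hG]
      linarith
  exact residual_of_dense_open hopen hdense


/-- Configuration types. -/
abbrev Cfg (m N : ℕ) : Type :=
  ℚ × (Fin N → ℚ) × Finset (Fin m × Fin N) × (Fin m × Fin N → Fin N) × Finset (Fin N)

/-- position of the vertices -/
noncomputable def pos {N : ℕ} (r : Fin N → ℚ) (Q : Finset (Fin N))
    (p : ℝ × ({v : Fin N // v ∉ Q} → ℝ)) (v : Fin N) : ℝ :=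
  if h : v ∈ Q then (r v : ℝ) else p.2 ⟨v, h⟩

lemma pos_continuous {N : ℕ} (r : Fin N → ℚ) (Q : Finset (Fin N)) (v : Fin N) :
    Continuous fun p => pos r Q p v := by
  unfold pos
  split_ifs with h
  · exact continuous_const
  · exact (continuous_apply _).comp continuous_snd

lemma pos_lip {N : ℕ} (r : Fin N → ℚ) (Q : Finset (Fin N)) (v : Fin N)
    (p q : ℝ × ({v : Fin N // v ∉ Q} → ℝ)) : |pos r Q p v - pos r Q q v| ≤ dist p q := by
  unfold pos
  split_ifs with h
  · simp
  · rw [← Real.dist_eq]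
    exact (dist_le_pi_dist p.2 q.2 _).trans (le_max_right _ _)

/-- the set of parameters -/
def parSet {N : ℕ} (sa : ℝ) (ρ : ℚ) (r : Fin N → ℚ) (Q : Finset (Fin N)) :
    Set (ℝ × ({v : Fin N // v ∉ Q} → ℝ)) :=
  Set.Icc 1 (1 / sa) ×ˢ
    Set.univ.pi fun v : {v : Fin N // v ∉ Q} => Metric.closedBall ((r v.1 : ℚ) : ℝ) (ρ : ℝ)

lemma parSet_compact {N : ℕ} (sa : ℝ) (ρ : ℚ) (r : Fin N → ℚ) (Q : Finset (Fin N)) :
    IsCompact (parSet sa ρ r Q) :=
  isCompact_Icc.prod (isCompact_univ_pi fun _ => isCompact_closedBall _ _)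

lemma pos_mem {N : ℕ} {sa : ℝ} {ρ : ℚ} (hρ : 0 < ρ) {r : Fin N → ℚ} {Q : Finset (Fin N)}
    {p : ℝ × ({v : Fin N // v ∉ Q} → ℝ)} (hp : p ∈ parSet sa ρ r Q) (v : Fin N) :
    |pos r Q p v - r v| ≤ ρ := by
  unfold pos
  split_ifs with h
  · have : (0:ℝ) < ρ := by exact_mod_cast hρ
    simpa using this.le
  · have := hp.2 ⟨v, h⟩ (Set.mem_univ _)
    rwa [Metric.mem_closedBall, Real.dist_eq] at this

/-- bumps -/
noncomputable def bmp (ρ r t : ℝ) : ℝ := max 0 (min 1 (2 - |t - r| / ρ))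

lemma bmp_abs (ρ r t : ℝ) : |bmp ρ r t| ≤ 1 := by
  unfold bmp
  rw [abs_of_nonneg (le_max_left _ _)]
  exact max_le zero_le_one (min_le_left _ _)

lemma bmp_one {ρ r t : ℝ} (hρ : 0 < ρ) (h : |t - r| ≤ ρ) : bmp ρ r t = 1 := by
  unfold bmp
  have : |t - r| / ρ ≤ 1 := by rw [div_le_one hρ]; exact h
  rw [min_eq_left (by linarith), max_eq_right zero_le_one]

lemma bmp_zero {ρ r t : ℝ} (hρ : 0 < ρ) (h : 2 * ρ ≤ |t - r|) : bmp ρ r t = 0 := by
  unfold bmp
  have : 2 ≤ |t - r| / ρ := by rw [le_div_iff₀ hρ]; exact h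
  rw [max_eq_left]
  exact (min_le_right _ _).trans (by linarith)

lemma bmp_lip {ρ : ℝ} (hρ : 0 < ρ) (r t t' : ℝ) :
    |bmp ρ r t - bmp ρ r t'| ≤ 1 / ρ * |t - t'| := by
  unfold bmp
  have h1 : |max 0 (min 1 (2 - |t - r| / ρ)) - max 0 (min 1 (2 - |t' - r| / ρ))|
      ≤ |min 1 (2 - |t - r| / ρ) - min 1 (2 - |t' - r| / ρ)| := by
    have := abs_max_sub_max_le_max 0 (min 1 (2 - |t - r| / ρ)) 0 (min 1 (2 - |t' - r| / ρ))
    simpa using this
  have h2 : |min 1 (2 - |t - r| / ρ) - min 1 (2 - |t' - r| / ρ)|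
      ≤ |(2 - |t - r| / ρ) - (2 - |t' - r| / ρ)| := by
    have := abs_min_sub_min_le_max 1 (2 - |t - r| / ρ) 1 (2 - |t' - r| / ρ)
    simpa using this
  have h3 : |(2 - |t - r| / ρ) - (2 - |t' - r| / ρ)| = 1 / ρ * |(|t - r|) - (|t' - r|)| := by
    have : (2 - |t - r| / ρ) - (2 - |t' - r| / ρ) = - (1 / ρ * (|t - r| - |t' - r|)) := by
      field_simp; ring
    rw [this, abs_neg, abs_mul, abs_of_pos (by positivity : 0 < 1 / ρ)]
  have h4 : |(|t - r|) - (|t' - r|)| ≤ |t - t'| := by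
    have := abs_abs_sub_abs_le_abs_sub (t - r) (t' - r)
    simpa using this
  calc _ ≤ _ := h1
    _ ≤ _ := h2
    _ = _ := h3
    _ ≤ _ := by gcongr

lemma cfg_residual {m : ℕ} {κ ε : ℝ} (hκ : 0 < κ) (hε : 0 < ε) (D₀ : ℝ → Fin m → ℝ) (K : NNReal)
    (hD : LipschitzWith K D₀) {sa : ℝ} (hsa : 0 < sa) {N : ℕ} (c : Cfg m N)
    (hρ : 0 < c.1) (hsep : ∀ v w, v ≠ w → 3 * (c.1 : ℝ) ≤ |(c.2.1 v : ℝ) - c.2.1 w|)
    (hcard : N + 1 < c.2.2.1.card + c.2.2.2.2.card) :
    ∀ᶠ φ : PSet m κ ε in residual (PSet m κ ε), ¬ ∃ p ∈ parSet sa c.1 c.2.1 c.2.2.2.2,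
      ∀ j : c.2.2.1, (φ : ℝ →ᵇ (Fin m → ℝ)) (pos c.2.1 c.2.2.2.2 p j.1.2) j.1.1 =
        (pos c.2.1 c.2.2.2.2 p (c.2.2.2.1 j.1) - pos c.2.1 c.2.2.2.2 p j.1.2) * p.1
          - D₀ (pos c.2.1 c.2.2.2.2 p j.1.2) j.1.1 := by
  obtain ⟨ρ, r, E, tgt, Q⟩ := c
  simp only at hρ hsep hcard ⊢
  have hρ' : (0:ℝ) < ρ := by exact_mod_cast hρ
  have hD' : ∀ t t' i, |D₀ t i - D₀ t' i| ≤ K * |t - t'| := by
    intro t t' i
    have h1 := hD.dist_le_mul t t'
    rw [Real.dist_eq] at h1
    have h2 := dist_le_pi_dist (D₀ t) (D₀ t') i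
    rw [Real.dist_eq] at h2
    exact h2.trans h1
  -- a bound for positions
  obtain ⟨B, hB0, hB⟩ : ∃ B : ℝ, 0 ≤ B ∧ ∀ v, |(r v : ℝ)| ≤ B := by
    refine ⟨∑ v, |(r v : ℝ)|, Finset.sum_nonneg fun _ _ => abs_nonneg _, fun v => ?_⟩
    exact Finset.single_le_sum (f := fun v => |(r v : ℝ)|) (fun _ _ => abs_nonneg _)
      (Finset.mem_univ v)
  have hpB : ∀ p ∈ parSet sa ρ r Q, ∀ v, |pos r Q p v| ≤ B + ρ := by
    intro p hp v
    have h1 := pos_mem hρ hp v
    have h2 := hB v
    calc |pos r Q p v| = |(r v : ℝ) + (pos r Q p v - r v)| := by congr 1; ring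
      _ ≤ |(r v : ℝ)| + |pos r Q p v - r v| := abs_add_le _ _
      _ ≤ B + ρ := by linarith
  refine good_residual hκ hε (parSet sa ρ r Q) (parSet_compact sa ρ r Q)
    (J := E) (fun j => j.1.1) (fun j p => pos r Q p j.1.2)
    (fun j p => (pos r Q p (tgt j.1) - pos r Q p j.1.2) * p.1 - D₀ (pos r Q p j.1.2) j.1.1)
    (fun j t => bmp ρ (r j.1.2) t) 1 (2 * (1 / sa) + 2 * (B + ρ) + K) (1 / ρ)
    zero_le_one (by positivity) (by positivity) ?_ ?_ ?_ ?_ ?_ ?_ ?_ ?_ ?_
  · intro j; exact pos_continuous r Q _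
  · intro j
    refine Continuous.sub (((pos_continuous r Q _).sub (pos_continuous r Q _)).mul continuous_fst) ?_
    exact ((continuous_apply _).comp hD.continuous).comp (pos_continuous r Q _)
  · intro j p _ q _
    rw [one_mul]; exact pos_lip r Q _ p q
  · intro j p hp q hq
    set a := pos r Q p (tgt j.1)
    set a' := pos r Q q (tgt j.1)
    set b := pos r Q p j.1.2
    set b' := pos r Q q j.1.2
    have e : (a - b) * p.1 - D₀ b j.1.1 - ((a' - b') * q.1 - D₀ b' j.1.1) =
        ((a - a') - (b - b')) * p.1 + (a' - b') * (p.1 - q.1) - (D₀ b j.1.1 - D₀ b' j.1.1) := by ring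
    have ha : |a - a'| ≤ dist p q := pos_lip r Q _ p q
    have hb : |b - b'| ≤ dist p q := pos_lip r Q _ p q
    have hp1 : |p.1| ≤ 1 / sa := by
      have := hp.1
      rw [abs_of_nonneg (by linarith [this.1])]
      exact this.2
    have hpq : |p.1 - q.1| ≤ dist p q := by
      rw [← Real.dist_eq]; exact le_max_left _ _
    have ha' : |a'| ≤ B + ρ := hpB q hq _
    have hb' : |b'| ≤ B + ρ := hpB q hq _
    have hDb : |D₀ b j.1.1 - D₀ b' j.1.1| ≤ K * dist p q := (hD' b b' j.1.1).trans (by gcongr)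
    have hd0 : 0 ≤ dist p q := dist_nonneg
    rw [e]
    calc |((a - a') - (b - b')) * p.1 + (a' - b') * (p.1 - q.1) - (D₀ b j.1.1 - D₀ b' j.1.1)|
        ≤ |((a - a') - (b - b')) * p.1| + |(a' - b') * (p.1 - q.1)| + |D₀ b j.1.1 - D₀ b' j.1.1| :=
          (abs_sub _ _).trans (by gcongr; exact abs_add_le _ _)
      _ ≤ (dist p q + dist p q) * (1 / sa) + ((B + ρ) + (B + ρ)) * dist p q + K * dist p q := by
          rw [abs_mul, abs_mul]
          gcongr
          · exact (abs_sub _ _).trans (by gcongr)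
          · exact (abs_sub _ _).trans (by gcongr)
      _ = (2 * (1 / sa) + 2 * (B + ρ) + K) * dist p q := by ring
  · intro j t t'; exact bmp_lip hρ' _ t t'
  · intro j t; exact bmp_abs _ _ _
  · intro p hp j
    exact bmp_one hρ' (pos_mem hρ hp _)
  · intro p hp j k hjk hi
    apply bmp_zero hρ'
    have hne : j.1.2 ≠ k.1.2 := by
      intro h
      apply hjk
      apply Subtype.ext
      exact Prod.ext hi h
    have h1 := hsep j.1.2 k.1.2 hne
    have h2 := pos_mem hρ hp k.1.2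
    have h3 : |(r j.1.2 : ℝ) - r k.1.2| ≤ |pos r Q p k.1.2 - r k.1.2| + |pos r Q p k.1.2 - r j.1.2| := by
      have : (r j.1.2 : ℝ) - r k.1.2 = (pos r Q p k.1.2 - r k.1.2) - (pos r Q p k.1.2 - r j.1.2) := by ring
      rw [this]; exact abs_sub _ _
    linarith
  · calc dimH (parSet sa ρ r Q) ≤ dimH (Set.univ : Set (ℝ × ({v : Fin N // v ∉ Q} → ℝ))) :=
          dimH_mono (Set.subset_univ _)
      _ = Module.finrank ℝ (ℝ × ({v : Fin N // v ∉ Q} → ℝ)) := Real.dimH_univ_eq_finrank _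
      _ < Fintype.card E := by
          rw [Module.finrank_prod, Module.finrank_self, Module.finrank_fintype_fun_eq_card,
            Fintype.card_coe]
          have h1 : Fintype.card {v : Fin N // v ∉ Q} = N - Q.card := by
            rw [Fintype.card_subtype_compl]
            simp
          rw [h1]
          have h2 : Q.card ≤ N := by
            have := Finset.card_le_univ Q
            simpa using this
          have h3 : 1 + (N - Q.card) < E.card := by omega
          exact_mod_cast h3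

lemma zero_residual {m : ℕ} (hm : 2 ≤ m) {κ ε : ℝ} (hκ : 0 < κ) (hε : 0 < ε)
    (D₀ : ℝ → Fin m → ℝ) (K : NNReal) (hD : LipschitzWith K D₀) (n : ℕ) :
    ∀ᶠ φ : PSet m κ ε in residual (PSet m κ ε), ¬ ∃ p ∈ Set.Icc (-(n:ℝ)) n,
      ∀ j : Fin m, (φ : ℝ →ᵇ (Fin m → ℝ)) p j = - D₀ p j := by
  have hD' : ∀ t t' i, |D₀ t i - D₀ t' i| ≤ K * |t - t'| := by
    intro t t' i
    have h1 := hD.dist_le_mul t t'
    rw [Real.dist_eq] at h1
    have h2 := dist_le_pi_dist (D₀ t) (D₀ t') i
    rw [Real.dist_eq] at h2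
    exact h2.trans h1
  refine good_residual hκ hε (Set.Icc (-(n:ℝ)) n) isCompact_Icc
    (J := Fin m) id (fun _ p => p) (fun j p => - D₀ p j) (fun _ _ => 1) 1 K 0
    zero_le_one (by positivity) le_rfl ?_ ?_ ?_ ?_ ?_ ?_ ?_ ?_ ?_
  · intro j; exact continuous_id
  · intro j; exact ((continuous_apply _).comp hD.continuous).neg
  · intro j p _ q _
    rw [one_mul, Real.dist_eq]
  · intro j p _ q _
    rw [Real.dist_eq]
    have : -D₀ p j - -D₀ q j = - (D₀ p j - D₀ q j) := by ring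
    rw [this, abs_neg]
    exact hD' p q j
  · intro j t t'; simp
  · intro j t; simp
  · intro p _ j; rfl
  · intro p _ j k hjk hi
    exact absurd hi hjk
  · calc dimH (Set.Icc (-(n:ℝ)) n) ≤ dimH (Set.univ : Set ℝ) := dimH_mono (Set.subset_univ _)
      _ = 1 := Real.dimH_univ
      _ < Fintype.card (Fin m) := by
          rw [Fintype.card_fin]
          exact_mod_cast (by omega : 1 < m)

/-- (L-Gen) -/
theorem generic (m : ℕ) (hm : 2 ≤ m) (D₀ : ℝ → Fin m → ℝ) (K : NNReal) (hD : LipschitzWith K D₀)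
    (sa κ ε : ℝ) (hsa : 0 < sa) (hκ : 0 < κ) (hε : 0 < ε) :
    ∃ φ : ℝ → Fin m → ℝ, (∀ t i, |φ t i| ≤ ε) ∧
      (∀ t t' i, |φ t i - φ t' i| ≤ κ * |t - t'|) ∧
      (∀ t, ∃ i, D₀ t i + φ t i ≠ 0) ∧
      ∀ s : ℝ, sa ≤ s → s ≤ 1 → ∀ (V : Finset ℝ) (E : Finset (Fin m × ℝ)),
        (∀ e ∈ E, e.2 ∈ V ∧ e.2 + s * (D₀ e.2 e.1 + φ e.2 e.1) ∈ V) →
        ∀ Q : Finset ℚ, (∀ q ∈ Q, (q : ℝ) ∈ V) → E.card + Q.card ≤ V.card + 1 := by
  classical
  have : Nonempty (PSet m κ ε) := ⟨⟨0, by constructor <;> intros <;> simp <;> positivity⟩⟩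
  have hres : ∀ᶠ φ : PSet m κ ε in residual (PSet m κ ε),
      (∀ n : ℕ, ¬ ∃ p ∈ Set.Icc (-(n:ℝ)) n, ∀ j : Fin m, (φ : ℝ →ᵇ (Fin m → ℝ)) p j = - D₀ p j) ∧
      ∀ (N : ℕ) (c : Cfg m N), 0 < c.1 →
        (∀ v w, v ≠ w → 3 * (c.1 : ℝ) ≤ |(c.2.1 v : ℝ) - c.2.1 w|) →
        N + 1 < c.2.2.1.card + c.2.2.2.2.card → ¬ ∃ p ∈ parSet sa c.1 c.2.1 c.2.2.2.2,
      ∀ j : c.2.2.1, (φ : ℝ →ᵇ (Fin m → ℝ)) (pos c.2.1 c.2.2.2.2 p j.1.2) j.1.1 =
        (pos c.2.1 c.2.2.2.2 p (c.2.2.2.1 j.1) - pos c.2.1 c.2.2.2.2 p j.1.2) * p.1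
          - D₀ (pos c.2.1 c.2.2.2.2 p j.1.2) j.1.1 := by
    refine Filter.Eventually.and ?_ ?_
    · rw [eventually_countable_forall]
      exact fun n => zero_residual hm hκ hε D₀ K hD n
    · rw [eventually_countable_forall]
      intro N
      rw [eventually_countable_forall]
      intro c
      by_cases h1 : 0 < c.1
      · by_cases h2 : ∀ v w, v ≠ w → 3 * (c.1 : ℝ) ≤ |(c.2.1 v : ℝ) - c.2.1 w|
        · by_cases h3 : N + 1 < c.2.2.1.card + c.2.2.2.2.card
          · filter_upwards [cfg_residual hκ hε D₀ K hD hsa c h1 h2 h3] with φ hφ _ _ _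
            exact hφ
          · exact Filter.Eventually.of_forall fun φ _ _ h => absurd h h3
        · exact Filter.Eventually.of_forall fun φ _ h => absurd h h2
      · exact Filter.Eventually.of_forall fun φ h => absurd h h1
  obtain ⟨φ, hφ0, hφ⟩ := (dense_of_mem_residual hres).nonempty
  refine ⟨fun t i => (φ : ℝ →ᵇ (Fin m → ℝ)) t i, φ.2.1, φ.2.2, ?_, ?_⟩
  · intro t
    by_contra hcon
    push Not at hcon
    obtain ⟨n, hn⟩ := exists_nat_ge |t|
    apply hφ0 n
    refine ⟨t, abs_le.mp hn, fun j => ?_⟩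
    have := hcon j
    linarith
  · intro s hs1 hs2 V E hE Q hQ
    by_contra hcon
    push Not at hcon
    have hs0 : 0 < s := lt_of_lt_of_le hsa hs1
    -- separation
    obtain ⟨δ, hδ, hsep⟩ : ∃ δ : ℝ, 0 < δ ∧ ∀ x ∈ V, ∀ y ∈ V, x ≠ y → δ ≤ |x - y| := by
      rcases ((V ×ˢ V).filter fun z => z.1 ≠ z.2).eq_empty_or_nonempty with h | h
      · refine ⟨1, one_pos, fun x hx y hy hxy => ?_⟩
        have : (x, y) ∈ ((V ×ˢ V).filter fun z => z.1 ≠ z.2) := by simp [hx, hy, hxy]
        rw [h] at this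
        simp at this
      · obtain ⟨z, hz, hmin⟩ := Finset.exists_min_image _ (fun z : ℝ × ℝ => |z.1 - z.2|) h
        rw [Finset.mem_filter] at hz
        refine ⟨|z.1 - z.2|, abs_pos.mpr (sub_ne_zero.mpr hz.2), fun x hx y hy hxy => ?_⟩
        exact hmin (x, y) (by simp [hx, hy, hxy])
    obtain ⟨ρ, hρ0, hρ1⟩ := exists_rat_btwn (show (0:ℝ) < δ / 5 by positivity)
    have hρ0' : (0 : ℚ) < ρ := by exact_mod_cast hρ0
    set N := V.card with hN
    let e : V ≃ Fin N := V.equivFin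
    set τ : Fin N → ℝ := fun v => ((e.symm v : V) : ℝ) with hτ
    have hτV : ∀ v, τ v ∈ V := fun v => (e.symm v).2
    have hτe : ∀ x (hx : x ∈ V), τ (e ⟨x, hx⟩) = x := by intro x hx; simp [hτ]
    have hτinj : Function.Injective τ := by
      intro v w hvw
      exact e.symm.injective (Subtype.ext hvw)
    have hr : ∀ v, ∃ q : ℚ, |(q : ℝ) - τ v| ≤ ρ ∧ ((∃ q' ∈ Q, (q' : ℝ) = τ v) → (q : ℝ) = τ v) := by
      intro v
      by_cases h : ∃ q' ∈ Q, (q' : ℝ) = τ v
      · obtain ⟨q', _, hq'⟩ := h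
        exact ⟨q', by rw [hq']; simpa using hρ0.le, fun _ => hq'⟩
      · obtain ⟨q, hq1, hq2⟩ := exists_rat_btwn (show τ v - ρ < τ v + ρ by linarith)
        exact ⟨q, by rw [abs_le]; constructor <;> linarith, fun h' => absurd h' h⟩
    choose r hr1 hr2 using hr
    let E' : Finset (Fin m × Fin N) := Finset.univ.filter fun p => (p.1, τ p.2) ∈ E
    let Q' : Finset (Fin N) := Finset.univ.filter fun v => ∃ q ∈ Q, (q : ℝ) = τ v
    let tgt : Fin m × Fin N → Fin N := fun p =>
      if h : τ p.2 + s * (D₀ (τ p.2) p.1 + (φ : ℝ →ᵇ (Fin m → ℝ)) (τ p.2) p.1) ∈ V then e ⟨_, h⟩ else p.2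
    have hE' : E'.card = E.card := by
      apply Finset.card_bij (fun p _ => (p.1, τ p.2))
      · intro p hp; exact (Finset.mem_filter.mp hp).2
      · intro p _ q _ hpq
        rw [Prod.mk.injEq] at hpq
        exact Prod.ext hpq.1 (hτinj hpq.2)
      · intro p hp
        refine ⟨(p.1, e ⟨p.2, (hE p hp).1⟩), ?_, ?_⟩
        · rw [Finset.mem_filter]
          refine ⟨Finset.mem_univ _, ?_⟩
          rw [hτe]; exact hp
        · simp only [hτe]
    have hQ' : Q'.card = Q.card := by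
      symm
      apply Finset.card_bij (fun (q : ℚ) (hq : q ∈ Q) => e ⟨(q : ℝ), hQ q hq⟩)
      · intro q hq
        rw [Finset.mem_filter]
        exact ⟨Finset.mem_univ _, q, hq, by rw [hτe]⟩
      · intro q hq q' hq' h
        have := e.injective h
        rw [Subtype.mk.injEq] at this
        exact_mod_cast this
      · intro v hv
        obtain ⟨_, q, hq, hqv⟩ := Finset.mem_filter.mp hv
        refine ⟨q, hq, ?_⟩
        apply hτinj
        rw [hτe]; exact hqv
    refine hφ N (ρ, r, E', tgt, Q') hρ0' ?_ ?_ ?_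
    · intro v w hvw
      simp only
      have h1 := hsep (τ v) (hτV v) (τ w) (hτV w) (fun h => hvw (hτinj h))
      have h2 := hr1 v
      have h3 := hr1 w
      have h4 : |τ v - τ w| ≤ |(r v : ℝ) - r w| + |(r v : ℝ) - τ v| + |(r w : ℝ) - τ w| := by
        have : τ v - τ w = ((r v : ℝ) - r w) - ((r v : ℝ) - τ v) + ((r w : ℝ) - τ w) := by ring
        rw [this]
        refine (abs_add_le _ _).trans ?_
        gcongr
        exact abs_sub _ _
      linarith
    · simp only
      rw [hE', hQ']; omega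
    · simp only
      set p : ℝ × ({v : Fin N // v ∉ Q'} → ℝ) := (1 / s, fun v => τ v) with hp
      have hpos : ∀ v, pos r Q' p v = τ v := by
        intro v
        unfold pos
        split_ifs with h
        · exact hr2 v (Finset.mem_filter.mp h).2
        · rfl
      refine ⟨p, ⟨⟨?_, ?_⟩, ?_⟩, ?_⟩
      · simp only [hp]
        rw [le_div_iff₀ hs0]; linarith
      · simp only [hp]
        exact one_div_le_one_div_of_le hsa hs1
      · intro v _
        rw [Metric.mem_closedBall, Real.dist_eq, abs_sub_comm]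
        exact hr1 v
      · rintro ⟨⟨i, v⟩, hj⟩
        simp only [hpos]
        have hmem : (i, τ v) ∈ E := (Finset.mem_filter.mp hj).2
        have h2 := (hE _ hmem).2
        simp only at h2
        have h3 : τ (tgt (i, v)) = τ v + s * (D₀ (τ v) i + (φ : ℝ →ᵇ (Fin m → ℝ)) (τ v) i) := by
          simp only [tgt]
          rw [dif_pos h2, hτe]
        rw [h3]
        simp only [hp]
        field_simp
        ring

end Pool.Agent.Helper9.Hopf
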